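import Pool.Agent.L0h7.KN.Stm

/-! # Project KN: a class which is trivial in the colimit is trivial at some stage (module STG) -/

set_option autoImplicit false

open CategoryTheory

noncomputable section

namespace Pool.Agent.L0h19.KN

open Pool.Agent.Y75.NK Pool.Agent.L0h7.KN

/-- The negative `K`-groups commute with colimits of sequences. -/
theorem fc_Kneg (hKZ : S_KZ) (hMON : S_MON) (hCON : S_CON) : ∀ m : ℕ, FC (Kneg m)
  | 0 => hKZ
  | m + 1 => hCON hMON (Kneg m) (fc_Kneg hKZ hMON hCON m)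

theorem ev_comp (R : Type) [Ring R] (m : ℕ) {n d : ℕ}
    (M : Matrix (Fin d) (Fin d) (MonoidAlgebra R ((EF m).obj (fm n)))) {G H : GrpCat.{0}}
    (f : fm n ⟶ G) (g : G ⟶ H) :
    (ev R m M f).map (MonoidAlgebra.mapDomainRingHom R ((EF m).map g).hom) =
      ev R m M (f ≫ g) := by
  have h1 : MonoidAlgebra.mapDomainRingHom R ((EF m).map (f ≫ g)).hom =
      (MonoidAlgebra.mapDomainRingHom R ((EF m).map g).hom).comp
        (MonoidAlgebra.mapDomainRingHom R ((EF m).map f).hom) := by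
    rw [← MonoidAlgebra.mapDomainRingHom_comp, Functor.map_comp, GrpCat.hom_comp]
  unfold ev
  rw [h1, Matrix.map_map]
  rfl

theorem kclass_congr (R : Type) [Ring R] (m : ℕ) (G : GrpCat.{0}) {d : ℕ}
    {A A' : Matrix (Fin d) (Fin d) (MonoidAlgebra R ((EF m).obj G))} (h : A * A = A)
    (h' : A' * A' = A') (e : A = A') : kclass R m G ⟨d, A, h⟩ = kclass R m G ⟨d, A', h'⟩ := by
  subst e
  rfl

/-- Naturality of the classes. -/
theorem kclass_nat (R : Type) [Ring R] (m : ℕ) {G H : GrpCat.{0}} (g : G ⟶ H)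
    (e : Idem (MonoidAlgebra R ((EF m).obj G))) :
    ((gr R ⋙ Kneg m).map g).hom (kclass R m G e) =
      kclass R m H (e.map (MonoidAlgebra.mapDomainRingHom R ((EF m).map g).hom)) := by
  have h5 := congrArg (fun z => z.hom (cls e)) ((kclT R m).naturality g)
  exact h5.symm

/-- **Module STG.** -/
theorem t_STG : S_STG := by
  intro hKZ hMON hCON hGRC hEFC R _ m n d M D B c hD f hT
  obtain ⟨hidem, hcls⟩ := hT
  have hcomp : ∀ {i j : ℕ} (h : i ⟶ j), D.map h ≫ c j = c i := fun h => hD.comp h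
  have hR : RCol ((D ⋙ EF m) ⋙ gr R) ((gr R).obj ((EF m).obj B))
      (fun i => (gr R).map ((EF m).map (c i))) := hGRC R _ _ _ (hEFC m D B c hD)
  -- the matrix is idempotent at some stage
  have hentry : ∀ a b : Fin d, ∃ (j : ℕ) (h : 0 ⟶ j),
      MonoidAlgebra.mapDomainRingHom R ((EF m).map (D.map h)).hom
        ((ev R m M f * ev R m M f - ev R m M f) a b) = 0 := by
    intro a b
    have h1 : MonoidAlgebra.mapDomainRingHom R ((EF m).map (c 0)).hom
        ((ev R m M f * ev R m M f - ev R m M f) a b) = 0 := by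
      have h2 : (ev R m M f * ev R m M f - ev R m M f).map
          (MonoidAlgebra.mapDomainRingHom R ((EF m).map (c 0)).hom) = 0 := by
        rw [Matrix.map_sub _ (map_sub _), Matrix.map_mul, ev_comp, hidem, sub_self]
      exact congrFun (congrFun h2 a) b
    exact hR.inj 0 _ h1
  choose J hJ hJ0 using hentry
  obtain ⟨j0, hj0⟩ : ∃ j0 : ℕ, ∀ a b, J a b ≤ j0 :=
    ⟨Finset.univ.sup fun a => Finset.univ.sup fun b => J a b, fun a b =>
      (Finset.le_sup (f := fun b => J a b) (Finset.mem_univ b)).trans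
        (Finset.le_sup (f := fun a => Finset.univ.sup fun b => J a b) (Finset.mem_univ a))⟩
  let h0 : (0 : ℕ) ⟶ j0 := homOfLE (Nat.zero_le _)
  have hidem0 : ev R m M (f ≫ D.map h0) * ev R m M (f ≫ D.map h0) = ev R m M (f ≫ D.map h0) := by
    rw [← sub_eq_zero, ← ev_comp, ← Matrix.map_mul, ← Matrix.map_sub _ (map_sub _)]
    ext1 a b
    rw [Matrix.map_apply]
    have h1 : h0 = hJ a b ≫ homOfLE (hj0 a b) := Subsingleton.elim _ _
    have h2 : MonoidAlgebra.mapDomainRingHom R ((EF m).map (D.map h0)).hom =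
        (MonoidAlgebra.mapDomainRingHom R ((EF m).map (D.map (homOfLE (hj0 a b)))).hom).comp
          (MonoidAlgebra.mapDomainRingHom R ((EF m).map (D.map (hJ a b))).hom) := by
      rw [← MonoidAlgebra.mapDomainRingHom_comp, h1, Functor.map_comp, Functor.map_comp,
        GrpCat.hom_comp]
    rw [h2, RingHom.comp_apply, hJ0 a b, map_zero]
    rfl
  -- its class
  have hK := fc_Kneg hKZ hMON hCON m (D ⋙ gr R) ((gr R).obj B) (fun i => (gr R).map (c i))
    (hGRC R D B c hD)
  have hx : ((gr R ⋙ Kneg m).map (c j0)).hom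
      (kclass R m (D.obj j0) ⟨d, ev R m M (f ≫ D.map h0), hidem0⟩) = 0 := by
    rw [kclass_nat]
    rw [← hcls]
    refine kclass_congr R m B _ _ ?_
    change (ev R m M (f ≫ D.map h0)).map _ = _
    rw [ev_comp, Category.assoc, hcomp]
  obtain ⟨j, h, hz⟩ := hK.inj j0 _ hx
  have hidem1 : ev R m M (f ≫ D.map (h0 ≫ h)) * ev R m M (f ≫ D.map (h0 ≫ h)) =
      ev R m M (f ≫ D.map (h0 ≫ h)) := by
    rw [Functor.map_comp, ← Category.assoc, ← ev_comp, ← Matrix.map_mul, hidem0]
  refine ⟨j, h0 ≫ h, hidem1, ?_⟩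
  have hz' : ((gr R ⋙ Kneg m).map (D.map h)).hom
      (kclass R m (D.obj j0) ⟨d, ev R m M (f ≫ D.map h0), hidem0⟩) = 0 := hz
  rw [kclass_nat] at hz'
  rw [← hz']
  refine kclass_congr R m (D.obj j) _ _ ?_
  change _ = (ev R m M (f ≫ D.map h0)).map _
  rw [ev_comp, Category.assoc, ← Functor.map_comp]

end Pool.Agent.L0h19.KN
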